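import Mathlib

/-!
# MP_33ac70_nt, Q1: the divergence statement is false

For `k = 1` there is `ρ : ℕ → [0, ∞)` with `∑ ρ(m)/m = ∞` such that for almost every
`θ ∈ (0, 1)` there are only finitely many solutions.  The function `ρ` is concentrated on short
blocks `[2^(i^2), 2^(i^2) + 2^i)`, with `ρ(m)/m = 2^(-i)` there.
For `θ < 1` the numbers `m^θ` of one block lie extremely close to one another, so that the whole
block costs only `O(2^(-i))` in measure, and Borel-Cantelli applies.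
-/

namespace Pool.Agent.Results.MP_33ac70_nt.DivergenceFails

open MeasureTheory Filter

/-- The set of solutions `(a_1, …, a_k, b) ∈ ℕ^(k+1)` (positive integers) of
`|∑ a_j^θ - b| ≤ ρ(‖a‖_∞) / ‖a‖_∞^k`, with `‖a‖_∞ = max a_j`. -/
def Solutions (k : ℕ) (ρ : ℕ → ℝ) (θ : ℝ) : Set ((Fin k → ℕ) × ℕ) :=
  {ab | (∀ j, 1 ≤ ab.1 j) ∧ 1 ≤ ab.2 ∧
    |(∑ j, ((ab.1 j : ℕ) : ℝ) ^ θ) - (ab.2 : ℝ)| ≤
      ρ (Finset.univ.sup ab.1) / ((Finset.univ.sup ab.1 : ℕ) : ℝ) ^ k}

/-- index of the block -/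
def idx (m : ℕ) : ℕ := Nat.sqrt (Nat.log 2 m)

/-- The function `ρ`. -/
noncomputable def rho (m : ℕ) : ℝ :=
  if m < 2 ^ ((idx m) ^ 2) + 2 ^ (idx m) then (m : ℝ) / 2 ^ (idx m) else 0

lemma rho_nonneg (m : ℕ) : 0 ≤ rho m := by
  unfold rho; split_ifs <;> positivity

lemma idx_of_mem {i m : ℕ} (h1 : 2 ^ (i ^ 2) ≤ m) (h2 : m < 2 ^ (i ^ 2) + 2 ^ i) : idx m = i := by
  have hlog : Nat.log 2 m = i ^ 2 := by
    have hm : m ≠ 0 := by
      have : 0 < 2 ^ (i ^ 2) := by positivity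
      omega
    refine (Nat.log_eq_iff (Or.inr ⟨by norm_num, hm⟩)).2 ⟨h1, ?_⟩
    have : 2 ^ i ≤ 2 ^ (i ^ 2) := Nat.pow_le_pow_right (by norm_num) (Nat.le_self_pow (by norm_num) i)
    rw [pow_succ]; omega
  unfold idx
  rw [hlog, pow_two, Nat.sqrt_eq]

lemma idx_spec {m : ℕ} (hm : 1 ≤ m) : 2 ^ ((idx m) ^ 2) ≤ m := by
  have h1 : (idx m) ^ 2 ≤ Nat.log 2 m := by
    unfold idx; exact Nat.sqrt_le' _
  calc 2 ^ ((idx m) ^ 2) ≤ 2 ^ (Nat.log 2 m) := Nat.pow_le_pow_right (by norm_num) h1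
    _ ≤ m := Nat.pow_log_le_self 2 (by omega)

lemma rho_div_of_mem {i m : ℕ} (h1 : 2 ^ (i ^ 2) ≤ m) (h2 : m < 2 ^ (i ^ 2) + 2 ^ i) :
    rho m / m = 1 / 2 ^ i := by
  have hi := idx_of_mem h1 h2
  have hm : (m : ℝ) ≠ 0 := by
    have : 0 < 2 ^ (i ^ 2) := by positivity
    have : m ≠ 0 := by omega
    exact_mod_cast this
  unfold rho
  rw [hi, if_pos h2]
  field_simp

lemma not_summable : ¬ Summable (fun m : ℕ => rho m / m) := by
  intro h
  rw [summable_iff_vanishing_norm] at h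
  obtain ⟨s, hs⟩ := h (1 / 2) (by norm_num)
  -- choose a block beyond `s`
  obtain ⟨B, hB⟩ : ∃ B : ℕ, ∀ m ∈ s, m < B := ⟨s.sup id + 1, fun m hm => by
    have := Finset.le_sup (f := id) hm
    simp only [id] at this; omega⟩
  have hlt : B < 2 ^ (B ^ 2) := by
    calc B < 2 ^ B := Nat.lt_two_pow_self
      _ ≤ 2 ^ (B ^ 2) := Nat.pow_le_pow_right (by norm_num) (Nat.le_self_pow (by norm_num) B)
  have hdisj : Disjoint (Finset.Ico (2 ^ (B ^ 2)) (2 ^ (B ^ 2) + 2 ^ B)) s := by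
    rw [Finset.disjoint_left]
    intro m hm hms
    have := hB m hms
    rw [Finset.mem_Ico] at hm
    omega
  have := hs _ hdisj
  have hsum : ∑ m ∈ Finset.Ico (2 ^ (B ^ 2)) (2 ^ (B ^ 2) + 2 ^ B), rho m / (m : ℝ) = 1 := by
    rw [Finset.sum_congr rfl (g := fun _ => (1 : ℝ) / 2 ^ B)]
    · rw [Finset.sum_const, Nat.card_Ico]
      simp
    · intro m hm
      rw [Finset.mem_Ico] at hm
      exact rho_div_of_mem hm.1 hm.2
  rw [hsum] at this
  norm_num at this

/-- The bad set of parameters for the block `i`. -/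
def bad (i : ℕ) : Set ℝ :=
  {θ | θ ∈ Set.Ioo (0 : ℝ) 1 ∧ ∃ b : ℕ, 1 ≤ b ∧ |((2 : ℝ) ^ (i ^ 2)) ^ θ - b| ≤ 2 / 2 ^ i}

lemma bad_piece {L δ : ℝ} (N : ℝ) (hN : 1 < N) (hL : L = Real.log N) (hδ : 0 ≤ δ) (hδ2 : δ ≤ 1 / 2)
    (b : ℕ) (hb : 1 ≤ b) :
    volume {θ : ℝ | |N ^ θ - b| ≤ δ} ≤ ENNReal.ofReal (4 * δ / L * (1 / b)) := by
  have hLpos : 0 < L := by rw [hL]; exact Real.log_pos hN
  have hb1 : (1 : ℝ) ≤ b := by exact_mod_cast hb
  have hN0 : 0 < N := by linarith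
  have hsub : {θ : ℝ | |N ^ θ - b| ≤ δ} ⊆
      Set.Icc (Real.log (b - δ) / L) (Real.log (b + δ) / L) := by
    intro θ hθ
    change |N ^ θ - b| ≤ δ at hθ
    rw [abs_le] at hθ
    have hpos : 0 < N ^ θ := Real.rpow_pos_of_pos hN0 θ
    have hlog : Real.log (N ^ θ) = θ * L := by rw [Real.log_rpow hN0, hL]
    constructor
    · rw [div_le_iff₀ hLpos, ← hlog]
      exact Real.log_le_log (by linarith) (by linarith [hθ.1])
    · rw [le_div_iff₀ hLpos, ← hlog]
      exact Real.log_le_log hpos (by linarith [hθ.2])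
  refine (measure_mono hsub).trans ?_
  rw [Real.volume_Icc]
  apply ENNReal.ofReal_le_ofReal
  have hbd : 0 < (b : ℝ) - δ := by linarith
  have hbd' : 0 < (b : ℝ) + δ := by linarith
  have h1 : Real.log (b + δ) - Real.log (b - δ) ≤ 2 * δ / (b - δ) := by
    rw [← Real.log_div hbd'.ne' hbd.ne']
    have h2 := Real.log_le_sub_one_of_pos (x := ((b : ℝ) + δ) / (b - δ)) (by positivity)
    have h3 : ((b : ℝ) + δ) / (b - δ) - 1 = 2 * δ / (b - δ) := by
      field_simp; ring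
    linarith
  have h4 : 2 * δ / (b - δ) ≤ 4 * δ * (1 / b) := by
    rw [div_le_iff₀ hbd, mul_one_div, div_mul_eq_mul_div, le_div_iff₀ (by linarith)]
    nlinarith
  calc Real.log (b + δ) / L - Real.log (b - δ) / L
      = (Real.log (b + δ) - Real.log (b - δ)) / L := by ring
    _ ≤ (4 * δ * (1 / b)) / L := by
        apply div_le_div_of_nonneg_right (h1.trans h4) hLpos.le
    _ = 4 * δ / L * (1 / b) := by ring

lemma volume_bad (i : ℕ) (hi : 2 ≤ i) : volume (bad i) ≤ ENNReal.ofReal (24 / 2 ^ i) := by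
  set N : ℕ := 2 ^ (i ^ 2) with hNdef
  have hN16 : 16 ≤ N := by
    calc 16 = 2 ^ 4 := by norm_num
      _ ≤ 2 ^ (i ^ 2) := Nat.pow_le_pow_right (by norm_num) (by nlinarith)
  have hNR : (16 : ℝ) ≤ N := by exact_mod_cast hN16
  have hNeq : ((2 : ℝ) ^ (i ^ 2)) = (N : ℝ) := by rw [hNdef]; push_cast; rfl
  set δ : ℝ := 2 / 2 ^ i with hδ
  have hδ0 : 0 ≤ δ := by positivity
  have hδ2 : δ ≤ 1 / 2 := by
    rw [hδ, div_le_div_iff₀ (by positivity) (by norm_num)]
    have : (2 : ℝ) ^ 2 ≤ 2 ^ i := pow_le_pow_right₀ (by norm_num) hi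
    linarith
  have hsub : bad i ⊆ ⋃ b ∈ Finset.Icc 1 (N + 1), {θ : ℝ | |(N : ℝ) ^ θ - (b : ℕ)| ≤ δ} := by
    intro θ hθ
    obtain ⟨⟨h0, h1⟩, b, hb, hab⟩ := hθ
    rw [hNeq] at hab
    simp only [Set.mem_iUnion, Finset.mem_Icc]
    refine ⟨b, ⟨hb, ?_⟩, hab⟩
    have h2 : (N : ℝ) ^ θ ≤ (N : ℝ) ^ (1 : ℝ) :=
      Real.rpow_le_rpow_of_exponent_le (by linarith) h1.le
    rw [Real.rpow_one] at h2
    rw [abs_le] at hab
    have : (b : ℝ) < N + 1 + 1 := by linarith [hab.1]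
    have : b < N + 1 + 1 := by exact_mod_cast this
    omega
  have hL : 0 < Real.log N := Real.log_pos (by linarith)
  refine (measure_mono hsub).trans ((measure_biUnion_finset_le _ _).trans ?_)
  calc ∑ b ∈ Finset.Icc 1 (N + 1), volume {θ : ℝ | |(N : ℝ) ^ θ - (b : ℕ)| ≤ δ}
      ≤ ∑ b ∈ Finset.Icc 1 (N + 1), ENNReal.ofReal (4 * δ / Real.log N * (1 / (b : ℝ))) := by
        apply Finset.sum_le_sum
        intro b hb
        exact bad_piece (N : ℝ) (by linarith) rfl hδ0 hδ2 b (Finset.mem_Icc.1 hb).1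
    _ = ENNReal.ofReal (∑ b ∈ Finset.Icc 1 (N + 1), 4 * δ / Real.log N * (1 / (b : ℝ))) := by
        rw [ENNReal.ofReal_sum_of_nonneg]
        intro b _; positivity
    _ ≤ ENNReal.ofReal (24 / 2 ^ i) := by
        apply ENNReal.ofReal_le_ofReal
        rw [← Finset.mul_sum]
        have hharm : ∑ b ∈ Finset.Icc 1 (N + 1), (1 / (b : ℝ)) ≤ 1 + Real.log (N + 1 : ℕ) := by
          have := harmonic_le_one_add_log (N + 1)
          rw [harmonic_eq_sum_Icc] at this
          push_cast at this ⊢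
          simpa [one_div] using this
        have hlog1 : (1 : ℝ) ≤ Real.log N := by
          rw [Real.le_log_iff_exp_le (by linarith)]
          have := Real.exp_one_lt_d9
          linarith
        have hlog2 : Real.log ((N + 1 : ℕ) : ℝ) ≤ 2 * Real.log N := by
          have : ((N + 1 : ℕ) : ℝ) ≤ (N : ℝ) ^ 2 := by push_cast; nlinarith
          calc Real.log ((N + 1 : ℕ) : ℝ) ≤ Real.log ((N : ℝ) ^ 2) :=
                Real.log_le_log (by positivity) this
            _ = 2 * Real.log N := by rw [Real.log_pow]; push_cast; ring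
        calc 4 * δ / Real.log N * ∑ b ∈ Finset.Icc 1 (N + 1), (1 / (b : ℝ))
            ≤ 4 * δ / Real.log N * (3 * Real.log N) := by
              apply mul_le_mul_of_nonneg_left _ (by positivity)
              linarith
          _ = 12 * δ := by field_simp; ring
          _ = 24 / 2 ^ i := by rw [hδ]; ring

lemma ae_eventually : ∀ᵐ θ : ℝ, ∀ᶠ i in atTop, θ ∉ bad i := by
  apply ae_eventually_notMem
  have hb : ∀ i, volume (bad i) ≤ ENNReal.ofReal (24 / 2 ^ i) := by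
    intro i
    rcases Nat.lt_or_ge i 2 with h | h
    · have h1 : bad i ⊆ Set.Ioo 0 1 := fun θ hθ => hθ.1
      refine (measure_mono h1).trans ?_
      rw [Real.volume_Ioo]
      apply ENNReal.ofReal_le_ofReal
      interval_cases i <;> norm_num
    · exact volume_bad i h
  have hs : Summable (fun i : ℕ => (24 : ℝ) / 2 ^ i) := by
    have := (summable_geometric_two).mul_left 24
    refine this.congr ?_
    intro i
    rw [one_div, inv_pow]
    rfl
  have h2 := hs.tsum_ofReal_lt_top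
  exact ((ENNReal.tsum_le_tsum hb).trans_lt h2).ne

lemma ae_not_log : ∀ᵐ θ : ℝ, ∀ a b : ℕ, 2 ≤ a → (a : ℝ) ^ θ ≠ b := by
  rw [ae_all_iff]; intro a
  rw [ae_all_iff]; intro b
  rcases Nat.lt_or_ge a 2 with h | h
  · exact Eventually.of_forall fun θ h' => absurd h' (by omega)
  · have hnull : volume ({Real.log b / Real.log a} : Set ℝ) = 0 := by simp
    have : ∀ᵐ θ : ℝ, θ ∉ ({Real.log b / Real.log a} : Set ℝ) :=
      measure_eq_zero_iff_ae_notMem.1 hnull
    filter_upwards [this] with θ hθ _ heq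
    apply hθ
    have ha : (0 : ℝ) < a := by positivity
    have hla : 0 < Real.log a := Real.log_pos (by exact_mod_cast h)
    have hl := congrArg Real.log heq
    rw [Real.log_rpow ha] at hl
    rw [Set.mem_singleton_iff, eq_div_iff hla.ne', hl]

/-- closeness inside a block -/
lemma close_block {i m : ℕ} {θ : ℝ} (h0 : 0 < θ) (h1 : θ < 1)
    (hm1 : 2 ^ (i ^ 2) ≤ m) (hm2 : m < 2 ^ (i ^ 2) + 2 ^ i)
    (hi : 2 ≤ (1 - θ) * i) :
    |(m : ℝ) ^ θ - ((2 : ℝ) ^ (i ^ 2)) ^ θ| ≤ 1 / 2 ^ i := by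
  set N : ℝ := (2 : ℝ) ^ (i ^ 2) with hN
  have hNpos : 0 < N := by positivity
  have hmN : N ≤ m := by rw [hN]; exact_mod_cast hm1
  have hmN2 : (m : ℝ) ≤ N + 2 ^ i := by rw [hN]; exact_mod_cast hm2.le
  have hge : N ^ θ ≤ (m : ℝ) ^ θ := Real.rpow_le_rpow hNpos.le hmN h0.le
  rw [abs_of_nonneg (by linarith)]
  set s : ℝ := (m - N) / N with hs
  have hs0 : 0 ≤ s := div_nonneg (by linarith) hNpos.le
  have hms : (m : ℝ) = N * (1 + s) := by rw [hs]; field_simp; ring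
  have hbern : (1 + s) ^ θ ≤ 1 + θ * s :=
    rpow_one_add_le_one_add_mul_self (by linarith) h0.le h1.le
  have h3 : (m : ℝ) ^ θ ≤ N ^ θ * (1 + s) := by
    rw [hms, Real.mul_rpow hNpos.le (by linarith)]
    apply mul_le_mul_of_nonneg_left _ (by positivity)
    nlinarith
  have h4 : (m : ℝ) ^ θ - N ^ θ ≤ N ^ θ * s := by linarith
  refine h4.trans ?_
  have hs1 : s ≤ 2 ^ i / N := by
    rw [hs]; exact div_le_div_of_nonneg_right (by linarith) hNpos.le
  calc N ^ θ * s ≤ N ^ θ * (2 ^ i / N) := by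
        apply mul_le_mul_of_nonneg_left hs1 (by positivity)
    _ = 2 ^ i * N ^ (θ - 1) := by
        rw [Real.rpow_sub hNpos, Real.rpow_one]; ring
    _ ≤ 1 / 2 ^ i := by
        have hN2 : N ^ (θ - 1) = (2 : ℝ) ^ (-((1 - θ) * i * i)) := by
          rw [hN, ← Real.rpow_natCast, ← Real.rpow_mul (by norm_num)]
          congr 1
          push_cast; ring
        have h5 : N ^ (θ - 1) ≤ (2 : ℝ) ^ (-(2 * (i : ℝ))) := by
          rw [hN2]
          apply Real.rpow_le_rpow_of_exponent_le (by norm_num)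
          have : (0 : ℝ) ≤ i := by positivity
          nlinarith
        have h6 : (2 : ℝ) ^ (-(2 * (i : ℝ))) = 1 / 2 ^ i * (1 / 2 ^ i) := by
          rw [Real.rpow_neg (by norm_num), Real.rpow_mul (by norm_num)]
          norm_num
          rw [show (4 : ℝ) = 2 * 2 by norm_num, mul_pow, mul_inv]
        calc 2 ^ i * N ^ (θ - 1) ≤ 2 ^ i * (1 / 2 ^ i * (1 / 2 ^ i)) := by
              apply mul_le_mul_of_nonneg_left _ (by positivity)
              rw [← h6]; exact h5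
          _ = 1 / 2 ^ i := by field_simp

lemma ae_finite : ∀ᵐ θ : ℝ, θ ∈ Set.Ioo (0 : ℝ) 1 → (Solutions 1 rho θ).Finite := by
  filter_upwards [ae_eventually, ae_not_log] with θ hev hlog hθ
  obtain ⟨h0, h1⟩ := hθ
  obtain ⟨I, hI⟩ := eventually_atTop.1 hev
  obtain ⟨J, hJ⟩ := exists_nat_gt (2 / (1 - θ))
  have h1θ : 0 < 1 - θ := by linarith
  set K := max I J with hK
  -- all solutions have `a < 2 ^ (K ^ 2)`
  have key : ∀ ab ∈ Solutions 1 rho θ, ab.1 0 < 2 ^ (K ^ 2) ∧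
      ab.2 ≤ 2 ^ (K ^ 2) + 1 + ⌈(rho (ab.1 0) / (ab.1 0 : ℝ))⌉₊ := by
    intro ab hab
    obtain ⟨ha, hb, hle⟩ := hab
    have hsup : Finset.univ.sup ab.1 = ab.1 0 := by simp
    rw [hsup] at hle
    simp only [Finset.univ_unique, Fin.default_eq_zero, Finset.sum_singleton, pow_one] at hle
    set a := ab.1 0 with haa
    set b := ab.2 with hbb
    have ha1 : 1 ≤ a := ha 0
    have hlt : a < 2 ^ (K ^ 2) := by
      by_contra hge
      push Not at hge
      have hspec := idx_spec ha1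
      -- idx a ≥ K
      have hidx : K ≤ idx a := by
        unfold idx
        rw [Nat.le_sqrt']
        exact Nat.le_log_of_pow_le (by norm_num) hge
      by_cases hmem : a < 2 ^ ((idx a) ^ 2) + 2 ^ (idx a)
      · have hrd := rho_div_of_mem hspec hmem
        rw [hrd] at hle
        have hi2 : 2 ≤ (1 - θ) * (idx a : ℝ) := by
          have : (J : ℝ) ≤ idx a := by exact_mod_cast (le_max_right I J).trans hidx
          have h5 : 2 / (1 - θ) ≤ idx a := by linarith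
          rw [div_le_iff₀ h1θ] at h5
          linarith
        have hc := close_block h0 h1 hspec hmem hi2
        apply hI (idx a) ((le_max_left I J).trans hidx)
        refine ⟨⟨h0, h1⟩, b, hb, ?_⟩
        rw [abs_le] at hc hle ⊢
        have h22 : (2 : ℝ) / 2 ^ (idx a) = 1 / 2 ^ (idx a) + 1 / 2 ^ (idx a) := by ring
        rw [h22]
        constructor <;> linarith [hc.1, hc.2, hle.1, hle.2]
      · have hr0 : rho a = 0 := by unfold rho; rw [if_neg hmem]
        rw [hr0, zero_div] at hle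
        have heq : (a : ℝ) ^ θ = b := by
          have := abs_nonpos_iff.1 hle
          linarith
        rcases Nat.lt_or_ge a 2 with h | h
        · -- `a = 1` is in block zero
          have ha' : a = 1 := by omega
          apply hmem
          rw [ha']
          have : 0 < 2 ^ (idx 1) := by positivity
          have : 0 < 2 ^ ((idx 1) ^ 2) := by positivity
          omega
        · exact hlog a b h heq
    refine ⟨hlt, ?_⟩
    have hle1 : (a : ℝ) ^ θ ≤ a := by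
      have h5 : (a : ℝ) ^ θ ≤ (a : ℝ) ^ (1 : ℝ) :=
        Real.rpow_le_rpow_of_exponent_le (by exact_mod_cast ha1) h1.le
      rwa [Real.rpow_one] at h5
    rw [abs_le] at hle
    have h6 : (b : ℝ) ≤ a + rho a / a := by linarith [hle.1]
    have h7 := Nat.le_ceil (rho a / (a : ℝ))
    have h8 : (a : ℝ) ≤ (2 : ℝ) ^ (K ^ 2) := by exact_mod_cast hlt.le
    have h9 : (b : ℝ) ≤ ((2 ^ (K ^ 2) + 1 + ⌈(rho a / (a : ℝ))⌉₊ : ℕ) : ℝ) := by
      push_cast; linarith
    exact_mod_cast h9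
  -- a finite box
  set M := 2 ^ (K ^ 2) with hM
  set R := M + 1 + (Finset.range M).sup (fun a => ⌈(rho a / (a : ℝ))⌉₊) with hR
  have hfin : (Set.Icc (0 : Fin 1 → ℕ) (fun _ => M) ×ˢ Set.Icc 0 R).Finite :=
    (Set.finite_Icc _ _).prod (Set.finite_Icc _ _)
  apply hfin.subset
  intro ab hab
  obtain ⟨h2, h3⟩ := key ab hab
  refine ⟨⟨fun j => by simp, fun j => ?_⟩, by simp, ?_⟩
  · have : j = 0 := Subsingleton.elim _ _
    rw [this]; exact h2.le
  · have h4 := Finset.le_sup (f := fun a => ⌈(rho a / (a : ℝ))⌉₊) (Finset.mem_range.2 h2)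
    have h5 : ⌈(rho (ab.1 0) / (ab.1 0 : ℝ))⌉₊ ≤
        (Finset.range M).sup (fun a => ⌈(rho a / (a : ℝ))⌉₊) := h4
    exact h3.trans (by omega)

/-- **Disproof of Q1 (with `k = 1`).**  There is `ρ : ℕ → [0, ∞)` with `∑ ρ(m)/m = ∞` such that for
almost every `θ ∈ (0, 1)` the inequality `|a^θ - b| ≤ ρ(a)/a` has only finitely many solutions
`(a, b) ∈ ℕ²`; in particular the set of `θ > 0` with only finitely many solutions has positive
Lebesgue measure. -/
theorem result :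
    (∃ ρ : ℕ → ℝ, (∀ m, 0 ≤ ρ m) ∧ ¬ Summable (fun m : ℕ => ρ m / (m : ℝ)) ∧
      (∀ᵐ θ : ℝ, θ ∈ Set.Ioo (0 : ℝ) 1 → (Solutions 1 ρ θ).Finite) ∧
      0 < volume {θ : ℝ | 0 < θ ∧ (Solutions 1 ρ θ).Finite}) ∧
    ¬ (∀ k : ℕ, 1 ≤ k → ∀ ρ : ℕ → ℝ, (∀ m, 0 ≤ ρ m) →
        ¬ Summable (fun m : ℕ => ρ m / (m : ℝ)) →
        ∀ᵐ θ : ℝ, 0 < θ → (Solutions k ρ θ).Infinite) := by
  have hpos : 0 < volume {θ : ℝ | 0 < θ ∧ (Solutions 1 rho θ).Finite} := by
    have h1 : volume (Set.Ioo (0 : ℝ) 1) ≤ volume {θ : ℝ | 0 < θ ∧ (Solutions 1 rho θ).Finite} := by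
      apply measure_mono_ae
      filter_upwards [ae_finite] with θ hθ hmem
      exact ⟨hmem.1, hθ hmem⟩
    refine lt_of_lt_of_le ?_ h1
    simp
  refine ⟨⟨rho, rho_nonneg, not_summable, ae_finite, hpos⟩, ?_⟩
  intro hall
  have h1 := hall 1 le_rfl rho rho_nonneg not_summable
  have h2 : volume {θ : ℝ | 0 < θ ∧ (Solutions 1 rho θ).Finite} = 0 := by
    rw [measure_eq_zero_iff_ae_notMem]
    filter_upwards [h1] with θ hθ hmem
    exact (hθ hmem.1) hmem.2
  exact hpos.ne' h2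

end Pool.Agent.Results.MP_33ac70_nt.DivergenceFails
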